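import Mathlib

set_option autoImplicit false

namespace Pool.Agent.Results.MP_bf8bcd_co.Cex

open Matrix Module

instance : Fact (∀ r : ZMod 2, r ^ 2 ≠ 1 + 1 * r) := ⟨by decide⟩

abbrev F := QuadraticAlgebra (ZMod 2) 1 1

instance : Fintype F := .ofEquiv _ (QuadraticAlgebra.equivProd 1 1).symm

def w : F := ⟨0, 1⟩

def s : Fin 6 → Matrix (Fin 3) (Fin 3) F := ![
  !![0, 1, 1 + w; 1, 1, 1; 0, w, 0],
  !![1 + w, 1 + w, w; 1 + w, 1 + w, 1 + w; 0, 1, 0],
  !![1, 1, 1 + w; w, 0, w; 1, 0, 0],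
  !![0, 0, 1; 1, 1, w; 1, 1 + w, 1],
  !![w, 1 + w, 1; 1 + w, w, 1; 1, 0, 1 + w],
  !![w, 1, w; 1 + w, 1 + w, 1; w, 1 + w, 1 + w]]

def T : Fin 6 → Matrix (Fin 3) (Fin 3) F := ![
  !![w, 1, 1; 0, 0, 0; 0, 0, 0],
  !![0, w, 1; 0, 0, 0; 0, 0, 0],
  !![1 + w, w, 1; 0, 0, 0; 0, 0, 0],
  !![1, 0, w; 0, 0, 0; 0, 0, 0],
  !![0, 1 + w, 1; 0, 0, 0; 0, 0, 0],
  !![1, 1, 0; 0, 0, 0; 0, 0, 0]]

def φ : Matrix (Fin 3) (Fin 3) F →+ Fin 6 → ZMod 2 := AddMonoidHom.mk'
  (fun X k => (∑ i, ∑ j, s k i j * X i j).im) fun X Y => by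
    funext k
    simp [mul_add, Finset.sum_add_distrib]

theorem card : Nat.card φ.ker = 4 ^ 6 := by
  have a := φ.ker.card_eq_card_quotient_mul_card_addSubgroup
  rw [Nat.card_congr (QuotientAddGroup.quotientKerEquivOfSurjective φ fun y =>
    ⟨∑ k, y k • T k, by revert y; decide +kernel⟩).toEquiv] at a
  have : Fintype.card F = 4 := rfl
  have b : Nat.card (Matrix (Fin 3) (Fin 3) F) = 4 ^ 9 := by
    rw [Nat.card_congr of.symm]
    simp [this]
  have c : Nat.card (Fin 6 → ZMod 2) = 64 := by simp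
  rw [b, c] at a
  omega

theorem key : ∀ a b c d e f : F, (∀ k, ((s k 0 0 * a + s k 0 1 * b + s k 0 2 * c) * d +
    (s k 1 0 * a + s k 1 1 * b + s k 1 2 * c) * e +
    (s k 2 0 * a + s k 2 1 * b + s k 2 2 * c) * f).im = 0) →
    (of fun i j => ![a, b, c] j * ![d, e, f] i) = 0 := by decide +kernel

theorem two (X : Matrix (Fin 3) (Fin 3) F) (h : φ X = 0) (n : X ≠ 0) : 2 ≤ X.rank := by
  by_contra l
  rw [rank_eq_finrank_span_cols] at l
  obtain ⟨⟨v, _⟩, hv⟩ := finrank_le_one_iff.1 (Nat.le_of_lt_succ (not_le.1 l))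
  choose c hc using fun j => hv ⟨_, Submodule.subset_span ⟨j, rfl⟩⟩
  have e : X = of fun i j => ![c 0, c 1, c 2] j * ![v 0, v 1, v 2] i := by
    ext i j : 1
    have := congrFun (congrArg Subtype.val (hc j)) i
    fin_cases i <;> fin_cases j <;> exact this.symm
  refine n (e ▸ key _ _ _ _ _ _ fun k => Eq.trans (congrArg _ ?_) (congrFun (e ▸ h) k))
  simp only [Fin.sum_univ_three, of_apply, cons_val]
  ring

theorem corner (X : Matrix (Fin 3) (Fin 3) F) (h : φ X = 0) (h' : φ (w • X) = 0) : X 0 0 = 0 := by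
  have k : ∀ k, ∑ i, ∑ j, s k i j * X i j = 0 := fun k =>
    (by decide : ∀ x : F, x.im = 0 → (w * x).im = 0 → x = 0) _ (congrFun h k) (by
      simp only [Finset.mul_sum, mul_left_comm w]
      exact congrFun h' k)
  have e : ∀ i j, s 0 i j = (if i = 0 ∧ j = 0 then 1 else 0) - w * s 1 i j := by decide +kernel
  have a := k 0
  simp only [e, sub_mul, Finset.sum_sub_distrib, mul_assoc, ← Finset.mul_sum, k 1] at a
  simpa [ite_and] using a

theorem ex {F K : Type} [Field F] [Field K] [Algebra F K] {n : ℕ} (b : Basis (Fin n) F K)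
    (σ : F ≃+* F) (u v : Fin n → F) (hu : u ≠ 0) (hv : v ≠ 0) :
    ∃ a, u ⬝ᵥ (Algebra.leftMulMatrix b a).map σ *ᵥ v ≠ 0 := by
  obtain ⟨i, hi⟩ := Function.ne_iff.1 hu
  obtain ⟨y, rfl⟩ : ∃ y, v = σ ∘ b.repr y :=
    ⟨b.equivFun.symm (σ.symm ∘ v), by
      funext i
      rw [Function.comp, ← Basis.equivFun_apply, LinearEquiv.apply_symm_apply]
      simp⟩
  have hy : y ≠ 0 := fun e => hv (by funext i; simp [e])
  refine ⟨b i / y, ?_⟩
  have : (Algebra.leftMulMatrix b (b i / y)).map σ *ᵥ σ ∘ b.repr y = Pi.single i 1 := by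
    funext j
    rw [← RingEquiv.coe_toRingHom, ← RingHom.map_mulVec, Algebra.leftMulMatrix_mulVec_repr,
      div_mul_cancel₀ _ hy]
    simp [Finsupp.single_apply, Pi.single_apply, eq_comm]
  simpa [this] using hi

theorem result : ∃ (F : Type) (_ : Field F) (_ : Fintype F) (n d : ℕ)
    (C : AddSubgroup (Matrix (Fin n) (Fin n) F)), 2 ≤ n ∧ d < n ∧
    IsLeast {r | ∃ X ∈ C, ∃ Y ∈ C, X ≠ Y ∧ (X - Y).rank = r} d ∧
    Nat.card C = Fintype.card F ^ (n * (n - d + 1)) ∧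
    ∀ (K : Type) [Field K] [Algebra F K] (b : Basis (Fin n) F K) (A B : GL (Fin n) F)
      (σ : F ≃+* F), (¬ ∀ a, A.1 * (Algebra.leftMulMatrix b a).map σ * B.1 ∈ C) ∧
        ¬ ∀ a, A.1 * ((Algebra.leftMulMatrix b a).map σ)ᵀ * B.1 ∈ C := by
  refine ⟨F, inferInstance, inferInstance, 3, 2, φ.ker, by norm_num, by norm_num, ⟨?_, ?_⟩, card,
    fun K _ _ b A B σ => ?_⟩
  · let P : Matrix (Fin 3) (Fin 2) F := !![0, 0; 1, 0; 1 + w, 1 + w]
    let Q : Matrix (Fin 2) (Fin 3) F := !![1, 0, 0; 0, 1, 0]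
    have h : φ (P * Q) = 0 := by decide +kernel
    have n : P * Q ≠ 0 := by decide +kernel
    refine ⟨P * Q, h, 0, zero_mem _, n, ?_⟩
    rw [sub_zero]
    exact le_antisymm ((rank_mul_le_left _ _).trans (rank_le_width _)) (two _ h n)
  · rintro _ ⟨X, p, Y, q, n, rfl⟩
    exact two _ (sub_mem p q) (sub_ne_zero.2 n)
  have hA : A.1 0 ≠ 0 := fun e => by
    have := congrFun₂ A.val_inv 0 0
    simp [mul_apply, e] at this
  have hB : (fun j => B.1 j 0) ≠ 0 := fun e => by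
    have := congrFun₂ B.inv_val 0 0
    simp [mul_apply, congrFun e] at this
  have sm : ∀ a, (Algebra.leftMulMatrix b (σ.symm w • a)).map σ =
      w • (Algebra.leftMulMatrix b a).map σ := fun a => by
    ext i j : 1
    simp
  constructor <;> intro h
  · obtain ⟨a, ha⟩ := ex b σ _ _ hA hB
    have k := h (σ.symm w • a)
    rw [sm, Matrix.mul_smul, Matrix.smul_mul] at k
    have := corner _ (h a) k
    rw [Matrix.mul_assoc] at this
    exact ha this
  · obtain ⟨a, ha⟩ := ex b σ _ _ hB hA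
    have k := h (σ.symm w • a)
    rw [sm, transpose_smul, Matrix.mul_smul, Matrix.smul_mul] at k
    have := corner _ (h a) k
    rw [dotProduct_comm, ← vecMul_transpose] at ha
    exact ha this

end Pool.Agent.Results.MP_bf8bcd_co.Cex
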